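import Pool.Agent.H61.HB.Stmts4
import Pool.Agent.H80.HB.GRC

/-! # Board fnd (MP_91403e_an), row CTA: continuity in time -/

set_option autoImplicit false

namespace HB

private theorem cta_nsq (c : ℝ) (q : V) :
    nsq 2 (fun j k => (c : ℂ) * q j k) = c ^ 2 * nsq 2 q := by
  unfold nsq nqS
  rw [Finset.mul_sum]
  refine Finset.sum_congr rfl fun j _ => ?_
  rw [← tsum_mul_left]
  refine tsum_congr fun k => ?_
  rw [norm_mul, mul_pow, Complex.norm_real, Real.norm_eq_abs, sq_abs]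
  ring

private theorem cta_scal (T : ℝ) (f : ℝ → ℝ) (hf : Continuous f) (q : V) (hq : Mem 2 q) :
    Cts 2 T (fun t => (fun j k => (f t : ℂ) * q j k : V)) := by
  refine ⟨fun t _ j => ?_, fun t _ => ?_⟩
  · have h := (hq j).mul_left (f t ^ 2)
    refine h.congr fun k => ?_
    rw [norm_mul, mul_pow, Complex.norm_real, Real.norm_eq_abs, sq_abs]
    ring
  · have h1 : ∀ r : ℝ, nsq 2 ((fun j k => (f r : ℂ) * q j k : V) -
        (fun j k => (f t : ℂ) * q j k : V)) = (f r - f t) ^ 2 * nsq 2 q := by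
      intro r
      rw [← cta_nsq]
      congr 1
      funext j k
      show (f r : ℂ) * q j k - (f t : ℂ) * q j k = ((f r - f t : ℝ) : ℂ) * q j k
      push_cast
      ring
    have h2 : Continuous fun r : ℝ => (f r - f t) ^ 2 * nsq 2 q := by fun_prop
    have h3 := (h2.tendsto t).mono_left (nhdsWithin_le_nhds (s := Set.Icc 0 T))
    simp only [sub_self] at h3
    rw [zero_pow two_ne_zero, zero_mul] at h3
    exact h3.congr fun r => (h1 r).symm

private theorem cta_add (hM : MMBStmt) {T : ℝ} {u v : ℝ → V} (hu : Cts 2 T u)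
    (hv : Cts 2 T v) : Cts 2 T (fun t => u t + v t) := by
  refine ⟨fun t ht => (hM.2.2.2.2.2 2 _ _ (hu.1 t ht) (hv.1 t ht)).2.1, fun t ht => ?_⟩
  have h1 := ((hu.2 t ht).const_mul 2).add ((hv.2 t ht).const_mul 2)
  rw [mul_zero, add_zero] at h1
  refine squeeze_zero' (Filter.Eventually.of_forall fun r => hM.2.2.2.1 2 _) ?_ h1
  filter_upwards [self_mem_nhdsWithin] with r hr
  have h2 : u r + v r - (u t + v t) = (u r - u t) + (v r - v t) := by
    funext j k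
    show u r j k + v r j k - (u t j k + v t j k) = u r j k - u t j k + (v r j k - v t j k)
    ring
  rw [h2]
  exact (hM.2.2.2.2.2 2 _ _ (hM.2.2.2.2.2 2 _ _ (hu.1 r hr) (hu.1 t ht)).1
    (hM.2.2.2.2.2 2 _ _ (hv.1 r hr) (hv.1 t ht)).1).2.2.2

private theorem cta_fs (M : ℝ) (m : Z2 → ℂ) (u : V) (h : Fs M u) :
    Fs M (fun j k => m k * u j k) := by
  intro j k hk
  show m k * u j k = 0
  rw [h j k hk, mul_zero]

private theorem cta_tht (ν : ℝ) (n : ℕ) : Continuous (tht ν n) := by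
  unfold tht
  fun_prop

theorem cta_thm (hM : MMBStmt) (hC : CONStmt) (hF : FSBStmt) (hA : FSAStmt) : CTAStmt := by
  refine ⟨fun T φ hφ => ⟨GRC.hm_cont hM hC hφ, GRC.mu_cont hC hφ, GRC.grd_cont hM hC hφ⟩, ?_⟩
  intro ν s T M p n v hs hM0 hp hv
  have hv2 := GRC.cts_two hM hs hv.cts
  have ho := (hA ν M p n 0 hM0 hp).2.2.1
  have hc := cta_tht ν n
  have hc1 : Continuous fun t => tht ν n t ^ 2 := hc.pow 2
  have hc2 : Continuous fun t => (n : ℝ) ^ 3 * tht ν n t := continuous_const.mul hc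
  have hApx : Cts 2 T (fun t => apx ν p n (tht ν n t)) :=
    cta_add hM (cta_scal T _ hc1 p (hF.2.1 M 2 p hp))
      (cta_scal T _ hc2 (osc ν p ((n : ℤ) ^ 2)) (hF.2.1 _ 2 _ ho))
  have hFrc : Cts 2 T (fun t => frc ν p n (tht ν n t)) := by
    have h1 := cta_add hM
      (cta_scal T _ hc1 (fun j k => ((ν * (sq k ^ 2 - 2 * (n : ℝ) ^ 8) : ℝ) : ℂ) * p j k)
        (hF.2.1 M 2 _ (cta_fs M _ p hp)))
      (cta_scal T _ hc2 (fun j k => ((ν * (sq k ^ 2 - (n : ℝ) ^ 8) : ℝ) : ℂ) *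
        osc ν p ((n : ℤ) ^ 2) j k) (hF.2.1 _ 2 _ (cta_fs _ _ _ ho)))
    convert h1 using 2 with t
    funext j k
    show ((ν * (sq k ^ 2 - 2 * (n : ℝ) ^ 8) * tht ν n t ^ 2 : ℝ) : ℂ) * p j k +
        ((ν * (sq k ^ 2 - (n : ℝ) ^ 8) * ((n : ℝ) ^ 3 * tht ν n t) : ℝ) : ℂ) *
          osc ν p ((n : ℤ) ^ 2) j k =
      ((tht ν n t ^ 2 : ℝ) : ℂ) * (((ν * (sq k ^ 2 - 2 * (n : ℝ) ^ 8) : ℝ) : ℂ) * p j k) +
        (((n : ℝ) ^ 3 * tht ν n t : ℝ) : ℂ) * (((ν * (sq k ^ 2 - (n : ℝ) ^ 8) : ℝ) : ℂ) *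
          osc ν p ((n : ℤ) ^ 2) j k)
    push_cast
    ring
  exact ⟨GRC.cts_sub hM hApx hv2, hApx, hFrc, hv2⟩

end HB
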