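import Pool.Agent.H61.HB.Stmts5
import Pool.Agent.H80.HB.TWA

/-! # Board fn3 (MP_91403e_an), row TR3: trilinear bound with the weight `|k|⁻³` -/

set_option autoImplicit false

namespace HB

private theorem tr3_tri (k l : Z2) : √(sq (k - l)) ≤ √(sq k) + √(sq l) := by
  have h0 := TWA.sq_nonneg' k
  have h0' := TWA.sq_nonneg' l
  rw [Real.sqrt_le_left (by positivity)]
  have h1 : sq (k - l) = sq k + sq l - 2 * ((k.1 : ℝ) * l.1 + k.2 * l.2) := by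
    unfold sq
    rw [Prod.fst_sub, Prod.snd_sub]
    push_cast
    ring
  have h2 : -((k.1 : ℝ) * l.1 + k.2 * l.2) ≤ √(sq k) * √(sq l) := by
    rw [← Real.sqrt_mul h0]
    apply Real.le_sqrt_of_sq_le
    unfold sq
    nlinarith [sq_nonneg ((k.1 : ℝ) * l.2 - k.2 * l.1)]
  have h3 := Real.sq_sqrt h0
  have h4 := Real.sq_sqrt h0'
  nlinarith

private theorem tr3_alg (A a b K L m : ℝ) (hA : 0 ≤ A) (ha : 0 ≤ a) (hb : 0 ≤ b)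
    (hK : 0 < K) (hL : 0 < L) (hm : 0 ≤ m) (hmk : m ≤ K + L) :
    A / (K ^ 2 * K) * (a * (m * b)) ≤
      √(A ^ 2 / (K ^ 2 * K) * (L * a ^ 2)) *
        √((2 * (K ^ 2 * K)⁻¹ + (L ^ 2 * L)⁻¹) * (m * b ^ 2)) := by
  rw [← Real.sqrt_mul (by positivity)]
  apply Real.le_sqrt_of_sq_le
  have key : m * L ^ 2 ≤ 2 * L ^ 3 + K ^ 3 := by
    have h1 : m * L ^ 2 ≤ (K + L) * L ^ 2 := mul_le_mul_of_nonneg_right hmk (by positivity)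
    have h2 : K * L ^ 2 ≤ L ^ 3 + K ^ 3 := by
      rcases le_total K L with h | h
      · have h3 : K * L ^ 2 ≤ L * L ^ 2 := mul_le_mul_of_nonneg_right h (by positivity)
        have h4 : 0 ≤ K ^ 3 := by positivity
        nlinarith
      · have h3 : L ^ 2 ≤ K ^ 2 := pow_le_pow_left₀ hL.le h 2
        have h4 : K * L ^ 2 ≤ K * K ^ 2 := mul_le_mul_of_nonneg_left h3 hK.le
        have h5 : 0 ≤ L ^ 3 := by positivity
        nlinarith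
    nlinarith
  have e : A ^ 2 / (K ^ 2 * K) * (L * a ^ 2) *
      ((2 * (K ^ 2 * K)⁻¹ + (L ^ 2 * L)⁻¹) * (m * b ^ 2)) -
      (A / (K ^ 2 * K) * (a * (m * b))) ^ 2 =
      A ^ 2 * a ^ 2 * b ^ 2 * m / (K ^ 6 * L ^ 2) * (2 * L ^ 3 + K ^ 3 - m * L ^ 2) := by
    field_simp
  have h3 : 0 ≤ A ^ 2 * a ^ 2 * b ^ 2 * m / (K ^ 6 * L ^ 2) *
      (2 * L ^ 3 + K ^ 3 - m * L ^ 2) := mul_nonneg (by positivity) (by linarith)
  linarith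

private theorem tr3_prod {f g : Z2 → ℝ} (hf : ∀ k, 0 ≤ f k) (hg : ∀ k, 0 ≤ g k)
    (hf1 : Summable f) (hg1 : Summable g) :
    Summable (fun x : Z2 × Z2 => f x.1 * g x.2) ∧
      ∑' x : Z2 × Z2, f x.1 * g x.2 = (∑' k, f k) * ∑' k, g k := by
  have hS : Summable (fun x : Z2 × Z2 => f x.1 * g x.2) := hf1.mul_of_nonneg hg1 hf hg
  refine ⟨hS, ?_⟩
  rw [hS.tsum_prod]
  calc ∑' k : Z2, ∑' l : Z2, f k * g l = ∑' k : Z2, f k * ∑' l : Z2, g l :=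
        tsum_congr fun k => tsum_mul_left
    _ = (∑' k, f k) * ∑' k, g k := tsum_mul_right

/-- `(k, l) ↦ (k, k - l)` -/
private def tr3_e1 : Z2 × Z2 ≃ Z2 × Z2 :=
  Equiv.prodShear (Equiv.refl Z2) (fun k => Equiv.subLeft k)

/-- `(k, l) ↦ (l, k - l)` -/
private def tr3_e2 : Z2 × Z2 ≃ Z2 × Z2 :=
  (Equiv.prodComm Z2 Z2).trans (Equiv.prodShear (Equiv.refl Z2) (fun l => Equiv.subRight l))

theorem tr3_thm (h1 : SM3Stmt) (h2 : GR3Stmt) : TR3Stmt := by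
  intro f a b hf ha hb ha0 ha2 hb2
  have hcn : ∀ k : Z2, 0 ≤ (sq k * √(sq k))⁻¹ := fun k =>
    inv_nonneg.2 (mul_nonneg (TWA.sq_nonneg' k) (Real.sqrt_nonneg _))
  have hB : ∀ k : Z2, 0 ≤ √(sq k) * b k ^ 2 := fun k => by positivity
  have hAA : ∀ k : Z2, 0 ≤ ‖off f k‖ ^ 2 / (sq k * √(sq k)) := fun k =>
    div_nonneg (by positivity) (mul_nonneg (TWA.sq_nonneg' k) (Real.sqrt_nonneg _))
  have hA2 : ∀ k : Z2, 0 ≤ √(sq k) * a k ^ 2 := fun k => by positivity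
  obtain ⟨hX, hXs⟩ := tr3_prod hAA hA2 (h2.1 f hf).2.1 ha2
  obtain ⟨hP, hPs⟩ := tr3_prod hcn hB h1 hb2
  have hY1 : Summable fun x : Z2 × Z2 =>
      (sq x.1 * √(sq x.1))⁻¹ * (√(sq (x.1 - x.2)) * b (x.1 - x.2) ^ 2) :=
    tr3_e1.summable_iff.2 hP
  have hY1s : ∑' x : Z2 × Z2,
      (sq x.1 * √(sq x.1))⁻¹ * (√(sq (x.1 - x.2)) * b (x.1 - x.2) ^ 2) =
      (∑' k, (sq k * √(sq k))⁻¹) * ∑' k, √(sq k) * b k ^ 2 := by
    rw [← hPs]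
    exact tr3_e1.tsum_eq fun x : Z2 × Z2 => (sq x.1 * √(sq x.1))⁻¹ * (√(sq x.2) * b x.2 ^ 2)
  have hY2 : Summable fun x : Z2 × Z2 =>
      (sq x.2 * √(sq x.2))⁻¹ * (√(sq (x.1 - x.2)) * b (x.1 - x.2) ^ 2) :=
    tr3_e2.summable_iff.2 hP
  have hY2s : ∑' x : Z2 × Z2,
      (sq x.2 * √(sq x.2))⁻¹ * (√(sq (x.1 - x.2)) * b (x.1 - x.2) ^ 2) =
      (∑' k, (sq k * √(sq k))⁻¹) * ∑' k, √(sq k) * b k ^ 2 := by
    rw [← hPs]
    exact tr3_e2.tsum_eq fun x : Z2 × Z2 => (sq x.1 * √(sq x.1))⁻¹ * (√(sq x.2) * b x.2 ^ 2)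
  have hYe : ∀ x : Z2 × Z2, (2 * (sq x.1 * √(sq x.1))⁻¹ + (sq x.2 * √(sq x.2))⁻¹) *
      (√(sq (x.1 - x.2)) * b (x.1 - x.2) ^ 2) =
      2 * ((sq x.1 * √(sq x.1))⁻¹ * (√(sq (x.1 - x.2)) * b (x.1 - x.2) ^ 2)) +
        (sq x.2 * √(sq x.2))⁻¹ * (√(sq (x.1 - x.2)) * b (x.1 - x.2) ^ 2) := fun x => by ring
  have hY : Summable fun x : Z2 × Z2 =>
      (2 * (sq x.1 * √(sq x.1))⁻¹ + (sq x.2 * √(sq x.2))⁻¹) *
        (√(sq (x.1 - x.2)) * b (x.1 - x.2) ^ 2) :=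
    ((hY1.mul_left 2).add hY2).congr fun x => (hYe x).symm
  have hYs : ∑' x : Z2 × Z2, (2 * (sq x.1 * √(sq x.1))⁻¹ + (sq x.2 * √(sq x.2))⁻¹) *
        (√(sq (x.1 - x.2)) * b (x.1 - x.2) ^ 2) = 3 * cZ * ∑' k, √(sq k) * b k ^ 2 := by
    rw [tsum_congr hYe, (hY1.mul_left 2).tsum_add hY2, tsum_mul_left, hY1s, hY2s]
    unfold cZ
    ring
  have hXn : ∀ x : Z2 × Z2, 0 ≤ ‖off f x.1‖ ^ 2 / (sq x.1 * √(sq x.1)) *
      (√(sq x.2) * a x.2 ^ 2) := fun x => mul_nonneg (hAA _) (hA2 _)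
  have hYn : ∀ x : Z2 × Z2, 0 ≤ (2 * (sq x.1 * √(sq x.1))⁻¹ + (sq x.2 * √(sq x.2))⁻¹) *
        (√(sq (x.1 - x.2)) * b (x.1 - x.2) ^ 2) := fun x =>
    mul_nonneg (by have := hcn x.1; have := hcn x.2; linarith) (hB _)
  have hcs := TWA.cs
    (fun x : Z2 × Z2 => √(‖off f x.1‖ ^ 2 / (sq x.1 * √(sq x.1)) * (√(sq x.2) * a x.2 ^ 2)))
    (fun x : Z2 × Z2 => √((2 * (sq x.1 * √(sq x.1))⁻¹ + (sq x.2 * √(sq x.2))⁻¹) *
        (√(sq (x.1 - x.2)) * b (x.1 - x.2) ^ 2)))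
    (fun _ => Real.sqrt_nonneg _) (fun _ => Real.sqrt_nonneg _)
    (hX.congr fun x => (Real.sq_sqrt (hXn x)).symm)
    (hY.congr fun x => (Real.sq_sqrt (hYn x)).symm)
  rw [tsum_congr fun x => Real.sq_sqrt (hXn x), tsum_congr fun x => Real.sq_sqrt (hYn x),
    hXs, hYs] at hcs
  have hle : ∀ x : Z2 × Z2, ‖off f x.1‖ / (sq x.1 * √(sq x.1)) *
      (a x.2 * (√(sq (x.1 - x.2)) * b (x.1 - x.2))) ≤
      √(‖off f x.1‖ ^ 2 / (sq x.1 * √(sq x.1)) * (√(sq x.2) * a x.2 ^ 2)) *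
        √((2 * (sq x.1 * √(sq x.1))⁻¹ + (sq x.2 * √(sq x.2))⁻¹) *
        (√(sq (x.1 - x.2)) * b (x.1 - x.2) ^ 2)) := by
    intro x
    by_cases hk : x.1 = 0
    · have h0 : off f x.1 = 0 := if_pos hk
      rw [h0, norm_zero, zero_div, zero_mul]
      positivity
    by_cases hl : x.2 = 0
    · rw [hl, ha0, zero_mul, mul_zero]
      positivity
    have hK : 0 < √(sq x.1) := Real.sqrt_pos.2 (lt_of_lt_of_le one_pos (TWA.one_le_sq hk))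
    have hL : 0 < √(sq x.2) := Real.sqrt_pos.2 (lt_of_lt_of_le one_pos (TWA.one_le_sq hl))
    have hh := tr3_alg ‖off f x.1‖ (a x.2) (b (x.1 - x.2)) (√(sq x.1)) (√(sq x.2))
      (√(sq (x.1 - x.2))) (norm_nonneg _) (ha _) (hb _) hK hL (Real.sqrt_nonneg _)
      (tr3_tri x.1 x.2)
    rw [Real.sq_sqrt (TWA.sq_nonneg' x.1), Real.sq_sqrt (TWA.sq_nonneg' x.2)] at hh
    exact hh
  have hTn : ∀ x : Z2 × Z2, 0 ≤ ‖off f x.1‖ / (sq x.1 * √(sq x.1)) *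
      (a x.2 * (√(sq (x.1 - x.2)) * b (x.1 - x.2))) := fun x =>
    mul_nonneg (div_nonneg (norm_nonneg _)
      (mul_nonneg (TWA.sq_nonneg' _) (Real.sqrt_nonneg _)))
      (mul_nonneg (ha _) (mul_nonneg (Real.sqrt_nonneg _) (hb _)))
  have hS := Summable.of_nonneg_of_le hTn hle hcs.1
  refine ⟨hS, ?_⟩
  have hcZ : 0 ≤ cZ := tsum_nonneg hcn
  have hhn : 0 ≤ hnS f := (h2.1 f hf).2.2.1
  have hsb : 0 ≤ ∑' k, √(sq k) * b k ^ 2 := tsum_nonneg hB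
  have hsa : 0 ≤ ∑' k, √(sq k) * a k ^ 2 := tsum_nonneg hA2
  refine (hS.tsum_le_tsum hle hcs.1).trans (hcs.2.trans ?_)
  show √(hnS f * ∑' k, √(sq k) * a k ^ 2) * √(3 * cZ * ∑' k, √(sq k) * b k ^ 2) ≤ _
  rw [Real.sqrt_mul hhn, Real.sqrt_mul (by positivity), Real.sqrt_mul (by norm_num)]
  have h3 : √(3 : ℝ) ≤ 2 := by
    rw [Real.sqrt_le_left (by norm_num)]
    norm_num
  have hM : 0 ≤ √(hnS f) * √(∑' k, √(sq k) * a k ^ 2) * (√cZ * √(∑' k, √(sq k) * b k ^ 2)) := by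
    positivity
  nlinarith [mul_le_mul_of_nonneg_right h3 hM]

end HB
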